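import Pool.Agent.Helper21.MH.Principle

set_option autoImplicit false

open Filter Topology

/-! The duality map and its inverse are Lipschitz; strong monotonicity. -/

namespace Pool.Agent.Helper53.BM

universe u

/-- A positively homogeneous map which is Lipschitz on the unit sphere is Lipschitz. -/
lemma lipschitz_of_sphere {X V : Type*} [NormedAddCommGroup X] [NormedSpace ℝ X]
    [NormedAddCommGroup V] [NormedSpace ℝ V] (F : X → V) {C : ℝ} (hC : 0 ≤ C)
    (hB : ∀ x : X, ‖x‖ = 1 → ‖F x‖ ≤ 1)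
    (hF : ∀ x y : X, ‖x‖ = 1 → ‖y‖ = 1 → ‖F x - F y‖ ≤ C * ‖x - y‖) (x y : X) :
    ‖‖x‖ • F (‖x‖⁻¹ • x) - ‖y‖ • F (‖y‖⁻¹ • y)‖ ≤ (1 + 2 * C) * ‖x - y‖ := by
  have hunit : ∀ z : X, z ≠ 0 → ‖‖z‖⁻¹ • z‖ = 1 := by
    intro z hz
    rw [norm_smul, norm_inv, norm_norm, inv_mul_cancel₀ (norm_ne_zero_iff.2 hz)]
  have hzero : ∀ z : X, z ≠ 0 → ‖‖z‖ • F (‖z‖⁻¹ • z)‖ ≤ (1 + 2 * C) * ‖z‖ := by
    intro z hz
    rw [norm_smul, norm_norm]
    calc ‖z‖ * ‖F (‖z‖⁻¹ • z)‖ ≤ ‖z‖ * 1 := by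
          gcongr
          exact hB _ (hunit z hz)
      _ ≤ (1 + 2 * C) * ‖z‖ := by nlinarith [norm_nonneg z, mul_nonneg hC (norm_nonneg z)]
  rcases eq_or_ne x 0 with rfl | hx
  · rcases eq_or_ne y 0 with rfl | hy
    · simp
    · have := hzero y hy
      simpa [norm_neg] using this
  rcases eq_or_ne y 0 with rfl | hy
  · simpa using hzero x hx
  set x' := ‖x‖⁻¹ • x with hx'
  set y' := ‖y‖⁻¹ • y with hy'
  have hxn : 0 < ‖x‖ := norm_pos_iff.2 hx
  have hyn : 0 < ‖y‖ := norm_pos_iff.2 hy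
  have e1 : ‖x‖ • F x' - ‖y‖ • F y' = (‖x‖ - ‖y‖) • F x' + ‖y‖ • (F x' - F y') := by
    rw [sub_smul, smul_sub]
    abel
  have e2 : ‖y‖ • (x' - y') = (‖y‖ - ‖x‖) • x' + (x - y) := by
    rw [smul_sub, sub_smul, hy', hx', smul_smul ‖y‖ ‖y‖⁻¹ y, mul_inv_cancel₀ hyn.ne', one_smul,
      smul_smul ‖x‖ ‖x‖⁻¹ x, mul_inv_cancel₀ hxn.ne', one_smul]
    abel
  have h1 : |‖x‖ - ‖y‖| ≤ ‖x - y‖ := abs_norm_sub_norm_le x y
  have h2 : ‖y‖ * ‖x' - y'‖ ≤ 2 * ‖x - y‖ := by
    calc ‖y‖ * ‖x' - y'‖ = ‖‖y‖ • (x' - y')‖ := by rw [norm_smul, norm_norm]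
      _ = ‖(‖y‖ - ‖x‖) • x' + (x - y)‖ := by rw [e2]
      _ ≤ ‖(‖y‖ - ‖x‖) • x'‖ + ‖x - y‖ := norm_add_le _ _
      _ = |‖y‖ - ‖x‖| + ‖x - y‖ := by rw [norm_smul, hunit x hx, mul_one, Real.norm_eq_abs]
      _ ≤ 2 * ‖x - y‖ := by
          rw [abs_sub_comm]
          linarith
  rw [e1]
  calc ‖(‖x‖ - ‖y‖) • F x' + ‖y‖ • (F x' - F y')‖ ≤
        ‖(‖x‖ - ‖y‖) • F x'‖ + ‖‖y‖ • (F x' - F y')‖ := norm_add_le _ _
    _ = |‖x‖ - ‖y‖| * ‖F x'‖ + ‖y‖ * ‖F x' - F y'‖ := by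
        rw [norm_smul, norm_smul, norm_norm, Real.norm_eq_abs]
    _ ≤ ‖x - y‖ * 1 + ‖y‖ * (C * ‖x' - y'‖) := by
        gcongr
        · exact hB _ (hunit x hx)
        · exact hF _ _ (hunit x hx) (hunit y hy)
    _ = ‖x - y‖ + C * (‖y‖ * ‖x' - y'‖) := by ring
    _ ≤ ‖x - y‖ + C * (2 * ‖x - y‖) := by gcongr
    _ = _ := by ring

variable {E : Type u} [NormedAddCommGroup E] [NormedSpace ℝ E]

lemma J_zero : J (0 : E) = 0 := by
  rw [← norm_eq_zero, norm_J, norm_zero]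

/-- `push T` as a linear map. -/
noncomputable def pushL (T : E ≃ₗᵢ[ℝ] E) : StrongDual ℝ E →ₗ[ℝ] StrongDual ℝ E where
  toFun := push T
  map_add' := by
    intro f g
    ext z
    simp
  map_smul' := by
    intro c f
    ext z
    simp

/-- `push T` as an isometry of the dual. -/
noncomputable def pushE (T : E ≃ₗᵢ[ℝ] E) : StrongDual ℝ E ≃ₗᵢ[ℝ] StrongDual ℝ E where
  toFun := push T
  invFun := push T.symm
  left_inv := by
    intro f
    ext z
    simp
  right_inv := by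
    intro f
    ext z
    simp
  map_add' := by
    intro f g
    ext z
    simp
  map_smul' := by
    intro c f
    ext z
    simp
  norm_map' := by
    intro f
    refine le_antisymm (norm_push_le T f) ?_
    have h1 : push T.symm (push T f) = f := by
      ext z
      simp
    calc ‖f‖ = ‖push T.symm (push T f)‖ := by rw [h1]
      _ ≤ ‖push T f‖ := norm_push_le _ _

theorem J_lipschitz (h : MicroSp E) : ∃ L : ℝ, 0 < L ∧ ∀ x y : E, ‖J x - J y‖ ≤ L * ‖x - y‖ := by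
  obtain ⟨C, hC, hlip⟩ := principle (fun x : E => J (‖x‖⁻¹ • x)) 1
    (by
      intro x hx
      rw [norm_J, norm_smul, norm_inv, norm_norm, hx]
      simp)
    (by
      intro x hx c hc
      congr 1
      rw [norm_smul, Real.norm_eq_abs, abs_of_pos hc, smul_smul, mul_inv, mul_assoc,
        mul_comm ‖x‖⁻¹ c, ← mul_assoc, inv_mul_cancel₀ hc.ne', one_mul])
    (by
      intro ε hε
      obtain ⟨t, ht, hmod⟩ := h.hmt ε hε
      refine ⟨t, ht, ?_⟩
      intro x y hx hy hxy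
      obtain ⟨T, hT, hTc⟩ := hmod x y hx hy hxy
      refine ⟨T, pushL T, hT, hTc, ?_, ?_⟩
      · intro v
        exact norm_push_sub_le hε.le hTc v
      · intro z _
        rw [LinearIsometryEquiv.norm_map, ← map_smul, J_map h.hmt]
        rfl)
  refine ⟨1 + 2 * C, by positivity, ?_⟩
  intro x y
  have h1 := lipschitz_of_sphere (fun x : E => J x) hC.le
    (by intro x hx; rw [norm_J, hx])
    (by
      intro x y hx hy
      have h2 := hlip x y hx hy
      simp only [hx, hy, inv_one, one_smul] at h2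
      exact h2) x y
  have h3 : ∀ z : E, ‖z‖ • J (‖z‖⁻¹ • z) = J z := by
    intro z
    rcases eq_or_ne z 0 with rfl | hz
    · simp [J_zero]
    · rw [← J_smul h.hmt, smul_smul, mul_inv_cancel₀ (norm_ne_zero_iff.2 hz), one_smul]
  simp only [h3] at h1
  exact h1

lemma refl_of_microSp [CompleteSpace E] (h : MicroSp E) (ζ : StrongDual ℝ (StrongDual ℝ E)) :
    ∃ y₀ : E, ∀ φ : StrongDual ℝ E, ζ φ = φ y₀ :=
  reflexive_of_dual_uc (dual_uc h.hmt h.hnt) ζ

/-- The duality map is surjective. -/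
lemma J_surjective [CompleteSpace E] (h : MicroSp E) (f : StrongDual ℝ E) : ∃ x : E, J x = f := by
  rcases eq_or_ne f 0 with rfl | hf
  · exact ⟨0, J_zero⟩
  · have hn : ‖f‖ ≠ 0 := norm_ne_zero_iff.2 hf
    obtain ⟨u, -, hu⟩ := J_surj h.hmt h.hnt (refl_of_microSp h) (‖f‖⁻¹ • f)
      (by rw [norm_smul, norm_inv, norm_norm, inv_mul_cancel₀ hn])
    refine ⟨‖f‖ • u, ?_⟩
    rw [J_smul h.hmt, hu, smul_smul, mul_inv_cancel₀ hn, one_smul]

/-- The duality map is injective. -/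
lemma J_injective [CompleteSpace E] (h : MicroSp E) {x y : E} (hxy : J x = J y) : x = y := by
  have hn : ‖x‖ = ‖y‖ := by rw [← norm_J, hxy, norm_J]
  rcases eq_or_ne x 0 with rfl | hx
  · rw [norm_zero] at hn
    exact (norm_eq_zero.1 hn.symm).symm
  have hxn : ‖x‖ ≠ 0 := norm_ne_zero_iff.2 hx
  by_contra hne
  have hd : 0 < ‖‖x‖⁻¹ • x - ‖x‖⁻¹ • y‖ := by
    rw [norm_pos_iff, ← smul_sub]
    exact smul_ne_zero (inv_ne_zero hxn) (sub_ne_zero.2 hne)
  obtain ⟨κ, hκ, hsep⟩ := separation h.hmt h.htr (refl_of_microSp h) hd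
  have h1 := hsep (‖x‖⁻¹ • x) (‖x‖⁻¹ • y)
    (by rw [norm_smul, norm_inv, norm_norm, inv_mul_cancel₀ hxn])
    (by rw [norm_smul, norm_inv, norm_norm, ← hn, inv_mul_cancel₀ hxn]) le_rfl
  rw [J_smul h.hmt, J_smul h.hmt, hxy, sub_self, norm_zero] at h1
  linarith

open Classical in
/-- The inverse of the duality map. -/
noncomputable def Ji (f : StrongDual ℝ E) : E := if h : ∃ x : E, J x = f then h.choose else 0

lemma J_Ji [CompleteSpace E] (h : MicroSp E) (f : StrongDual ℝ E) : J (Ji f) = f := by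
  unfold Ji
  rw [dif_pos (J_surjective h f)]
  exact (J_surjective h f).choose_spec

lemma Ji_J [CompleteSpace E] (h : MicroSp E) (x : E) : Ji (J x) = x := J_injective h (J_Ji h _)

lemma norm_Ji [CompleteSpace E] (h : MicroSp E) (f : StrongDual ℝ E) : ‖Ji f‖ = ‖f‖ := by
  rw [← norm_J, J_Ji h]

lemma Ji_smul [CompleteSpace E] (h : MicroSp E) (c : ℝ) (f : StrongDual ℝ E) :
    Ji (c • f) = c • Ji f := by
  apply J_injective h
  rw [J_Ji h, J_smul h.hmt, J_Ji h]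

lemma Ji_push [CompleteSpace E] (h : MicroSp E) (T : E ≃ₗᵢ[ℝ] E) (f : StrongDual ℝ E) :
    Ji (push T f) = T (Ji f) := by
  apply J_injective h
  rw [J_Ji h, J_map h.hmt, J_Ji h]

theorem J_inv_lipschitz [CompleteSpace E] (h : MicroSp E) :
    ∃ K : ℝ, 0 < K ∧ ∀ x y : E, ‖x - y‖ ≤ K * ‖J x - J y‖ := by
  obtain ⟨C, hC, hlip⟩ := principle (fun f : StrongDual ℝ E => Ji (‖f‖⁻¹ • f)) 1
    (by
      intro f hf
      rw [norm_Ji h, norm_smul, norm_inv, norm_norm, hf]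
      simp)
    (by
      intro x hx c hc
      congr 1
      rw [norm_smul, Real.norm_eq_abs, abs_of_pos hc, smul_smul, mul_inv, mul_assoc,
        mul_comm ‖x‖⁻¹ c, ← mul_assoc, inv_mul_cancel₀ hc.ne', one_mul])
    (by
      intro ε hε
      obtain ⟨t, ht, hmod⟩ := h.hmt ε hε
      obtain ⟨κ, hκ, hsep⟩ := separation h.hmt h.htr (refl_of_microSp h) ht
      refine ⟨κ / 2, by positivity, ?_⟩
      intro f g hf hg hfg
      obtain ⟨T, hT, hTc⟩ := hmod (Ji f) (Ji g) (by rw [norm_Ji h, hf]) (by rw [norm_Ji h, hg])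
        (by
          by_contra hcon
          push Not at hcon
          have h1 := hsep (Ji f) (Ji g) (by rw [norm_Ji h, hf]) (by rw [norm_Ji h, hg]) hcon.le
          rw [J_Ji h, J_Ji h] at h1
          linarith)
      refine ⟨pushE T, T.toLinearEquiv.toLinearMap, ?_, ?_, ?_, ?_⟩
      · change push T f = g
        rw [← J_Ji h f, ← J_map h.hmt, hT, J_Ji h]
      · intro v
        exact norm_push_sub_le hε.le hTc v
      · intro v
        exact hTc v
      · intro z _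
        rw [LinearIsometryEquiv.norm_map, ← map_smul]
        exact Ji_push h T _)
  refine ⟨1 + 2 * C, by positivity, ?_⟩
  intro x y
  have h1 := lipschitz_of_sphere (fun f : StrongDual ℝ E => Ji f) hC.le
    (by intro f hf; rw [norm_Ji h, hf])
    (by
      intro f g hf hg
      have h2 := hlip f g hf hg
      simp only [hf, hg, inv_one, one_smul] at h2
      exact h2) (J x) (J y)
  have h3 : ∀ f : StrongDual ℝ E, ‖f‖ • Ji (‖f‖⁻¹ • f) = Ji f := by
    intro f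
    rcases eq_or_ne f 0 with rfl | hf
    · rw [norm_zero, zero_smul]
      rw [eq_comm, ← norm_eq_zero, norm_Ji h, norm_zero]
    · rw [← Ji_smul h, smul_smul, mul_inv_cancel₀ (norm_ne_zero_iff.2 hf), one_smul]
  simp only [h3, Ji_J h] at h1
  exact h1

/-- The subgradient inequality for half the squared norm. -/
lemma half_sq_ge (x y : E) : ‖x‖ ^ 2 / 2 + J x (y - x) ≤ ‖y‖ ^ 2 / 2 := by
  have h1 := (dual_J x).apply_le y
  rw [map_sub, J_apply_self]
  nlinarith [sq_nonneg (‖x‖ - ‖y‖)]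

theorem J_strong_mono [CompleteSpace E] (h : MicroSp E) :
    ∃ c : ℝ, 0 < c ∧ ∀ x y : E, c * ‖x - y‖ ^ 2 ≤ (J x - J y) (x - y) := by
  obtain ⟨K, hK, hKlip⟩ := J_inv_lipschitz h
  have key : ∀ x y : E, ‖x‖ ^ 2 / 2 + J x (y - x) + 1 / (4 * K) * ‖x - y‖ ^ 2 ≤ ‖y‖ ^ 2 / 2 := by
    intro x y
    set η : StrongDual ℝ E := (1 / (2 * K)) • J (y - x) with hη
    obtain ⟨z, hz⟩ := J_surjective h (J x + η)
    have h1 := half_sq_ge x z
    have h2 := half_sq_ge z y
    have h3 : ‖x - z‖ ≤ K * ‖η‖ := by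
      have := hKlip x z
      rw [hz] at this
      simpa [norm_neg] using this
    have hηn : ‖η‖ = 1 / (2 * K) * ‖x - y‖ := by
      rw [hη, norm_smul, norm_J, Real.norm_eq_abs, abs_of_pos (by positivity), norm_sub_rev]
    have h4 : η (y - x) = 1 / (2 * K) * ‖x - y‖ ^ 2 := by
      rw [hη, smul_apply, J_apply_self, smul_eq_mul, norm_sub_rev]
    have h5 : J z (y - z) = J x (y - z) + η (y - x) - η (z - x) := by
      rw [hz, add_apply]
      simp only [map_sub]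
      ring
    have h6 : J x (z - x) + J x (y - z) = J x (y - x) := by
      simp only [map_sub]
      ring
    have h7 : η (z - x) ≤ K * ‖η‖ ^ 2 := by
      calc η (z - x) ≤ ‖η‖ * ‖z - x‖ := (le_abs_self _).trans (by simpa using η.le_opNorm (z - x))
        _ ≤ ‖η‖ * (K * ‖η‖) := by
            gcongr
            rw [norm_sub_rev]
            exact h3
        _ = _ := by ring
    have h8 : K * ‖η‖ ^ 2 = 1 / (4 * K) * ‖x - y‖ ^ 2 := by
      rw [hηn]
      field_simp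
      ring
    have h9 : 1 / (2 * K) * ‖x - y‖ ^ 2 = 1 / (4 * K) * ‖x - y‖ ^ 2 + 1 / (4 * K) * ‖x - y‖ ^ 2 := by
      field_simp
      ring
    linarith
  refine ⟨1 / (2 * K), by positivity, ?_⟩
  intro x y
  have h1 := key x y
  have h2 := key y x
  have h3 : (J x - J y) (x - y) = -(J x (y - x)) - J y (x - y) := by
    rw [sub_apply]
    simp only [map_sub]
    ring
  rw [h3]
  rw [norm_sub_rev y x] at h2
  have h9 : 1 / (2 * K) * ‖x - y‖ ^ 2 = 1 / (4 * K) * ‖x - y‖ ^ 2 + 1 / (4 * K) * ‖x - y‖ ^ 2 := by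
    field_simp
    ring
  linarith

end Pool.Agent.Helper53.BM
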