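import Pool.Agent.Helper53.BM.MH.Ultra2
import Pool.Agent.Helper53.BM.MH.Defs2
import Pool.Agent.Helper12.MH.Lip

set_option autoImplicit false

open Filter Topology BoundedContinuousFunction

/-! MH-11: compression of skew operators of the ultrapower; MH-12: difference quotients. -/

namespace Pool.Agent.Helper53.BM

universe u

variable {E : Type u} [NormedAddCommGroup E] [NormedSpace ℝ E]

/-- The weak limit of a bounded sequence in a reflexive space. -/
theorem exists_wlim [CompleteSpace E] (h : MicroSp E) :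
    ∃ W : UP E →L[ℝ] E, ∀ (X : UP E) (φ : StrongDual ℝ E), φ (W X) = ufun (ucst φ) X := by
  -- the functional on the dual
  have hζ : ∀ X : UP E, ∃ y : E, ∀ φ : StrongDual ℝ E, ufun (ucst φ) X = φ y := by
    intro X
    obtain ⟨x, rfl⟩ := umk_surj X
    have hadd : ∀ φ ψ : StrongDual ℝ E, ufun (ucst (φ + ψ)) (umk x) =
        ufun (ucst φ) (umk x) + ufun (ucst ψ) (umk x) := by
      intro φ ψ
      refine tendsto_nhds_unique (tendsto_ufun (ucst (φ + ψ)) x) ?_
      exact (tendsto_ufun (ucst φ) x).add (tendsto_ufun (ucst ψ) x)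
    have hsmul : ∀ (c : ℝ) (φ : StrongDual ℝ E), ufun (ucst (c • φ)) (umk x) =
        c * ufun (ucst φ) (umk x) := by
      intro c φ
      refine tendsto_nhds_unique (tendsto_ufun (ucst (c • φ)) x) ?_
      exact (tendsto_ufun (ucst φ) x).const_mul c
    have hbd : ∀ φ : StrongDual ℝ E, ‖ufun (ucst φ) (umk x)‖ ≤ ‖umk x‖ * ‖φ‖ := by
      intro φ
      refine le_of_tendsto_of_tendsto' (tendsto_ufun (ucst φ) x).norm
        ((tendsto_norm x).mul_const ‖φ‖) fun n => ?_
      rw [mul_comm]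
      exact φ.le_opNorm _
    let ζ : StrongDual ℝ (StrongDual ℝ E) :=
      LinearMap.mkContinuous
        { toFun := fun φ => ufun (ucst φ) (umk x)
          map_add' := hadd
          map_smul' := hsmul } ‖umk x‖ hbd
    exact refl_of_microSp h ζ
  choose W hW using hζ
  have hsep : ∀ x y : E, (∀ φ : StrongDual ℝ E, φ x = φ y) → x = y := by
    intro x y hxy
    by_contra hne
    have h1 := hxy (J (x - y))
    have h2 : J (x - y) (x - y) = 0 := by rw [map_sub, h1, sub_self]
    rw [J_apply_self] at h2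
    have h3 : ‖x - y‖ = 0 := by simpa using h2
    exact hne (sub_eq_zero.1 (norm_eq_zero.1 h3))
  have hWadd : ∀ X Y : UP E, W (X + Y) = W X + W Y := by
    intro X Y
    apply hsep
    intro φ
    rw [← hW, map_add, map_add, hW, hW]
  have hWsmul : ∀ (c : ℝ) (X : UP E), W (c • X) = c • W X := by
    intro c X
    apply hsep
    intro φ
    rw [← hW, map_smul, map_smul, hW]
  have hWbd : ∀ X : UP E, ‖W X‖ ≤ 1 * ‖X‖ := by
    intro X
    rw [one_mul]
    rcases eq_or_ne (W X) 0 with h0 | h0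
    · rw [h0, norm_zero]
      exact norm_nonneg _
    have hpos : 0 < ‖W X‖ := norm_pos_iff.2 h0
    have h1 : J (W X) (W X) = ufun (ucst (J (W X))) X := (hW X _).symm
    have h2 : ufun (ucst (J (W X))) X ≤ ‖W X‖ * ‖X‖ := by
      obtain ⟨x, rfl⟩ := umk_surj X
      refine le_of_tendsto_of_tendsto' (tendsto_ufun (ucst (J (W (umk x)))) x)
        ((tendsto_norm x).const_mul ‖W (umk x)‖) fun n => ?_
      exact (dual_J _).apply_le _
    rw [J_apply_self] at h1
    have h3 : ‖W X‖ * ‖W X‖ ≤ ‖W X‖ * ‖X‖ := by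
      rw [← sq, h1]
      exact h2
    exact le_of_mul_le_mul_left h3 hpos
  exact ⟨LinearMap.mkContinuous
    { toFun := W
      map_add' := hWadd
      map_smul' := hWsmul } 1 hWbd, fun X φ => (hW X φ).symm⟩

/-- A skew operator of the ultrapower compresses to a skew operator of the space. -/
theorem compress [CompleteSpace E] (h : MicroSp E) {D : UP E →L[ℝ] UP E}
    (hD : D ∈ skewOps (UP E)) :
    ∃ D' ∈ skewOps E, ∀ z x : E, J (udiag z) (D (udiag x)) = J z (D' x) := by
  obtain ⟨W, hW⟩ := exists_wlim h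
  have key : ∀ z x : E, J (udiag z) (D (udiag x)) = J z (W (D (udiag x))) := by
    intro z x
    rw [hW, udiag_apply, J_umk h]
    congr 1
  refine ⟨(W.comp D).comp (udiag (E := E)).toContinuousLinearMap, ?_, ?_⟩
  · intro y
    change J y (W (D (udiag y))) = 0
    rw [← key]
    exact hD (udiag y)
  · intro z x
    exact key z x

/-- If `u ∈ ker J z`, there is a nonzero skew operator on the ultrapower which maps `z` to a
multiple of `u`. -/
theorem exists_skew_UP [CompleteSpace E] (h : MicroSp E) {z u : E} (hz : ‖z‖ = 1) (hu : ‖u‖ = 1)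
    (hzu : J z u = 0) :
    ∃ D ∈ skewOps (UP E), D ≠ 0 ∧ ∃ c : ℝ, D (udiag z) = c • udiag u := by
  obtain ⟨L, hL, hLip⟩ := J_lipschitz h
  -- scales
  choose t ht hmod using fun k : ℕ => h.hmt (1 / ((k : ℝ) + 1)) (by positivity)
  set σ : ℝ := min (1 / 2) (1 / (4 * L)) with hσ
  have hσ0 : 0 < σ := by positivity
  set s : ℕ → ℝ := fun k => min (σ / ((k : ℝ) + 1)) (t k / 2) with hs
  have hs0 : ∀ k, 0 < s k := fun k => lt_min (by positivity) (by have := ht k; positivity)
  have hs1 : ∀ k, s k ≤ σ / ((k : ℝ) + 1) := fun k => min_le_left _ _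
  have hs2 : ∀ k, s k ≤ t k / 2 := fun k => min_le_right _ _
  have hsσ : ∀ k, s k ≤ σ := fun k => (hs1 k).trans (by
    rw [div_le_iff₀ (by positivity)]
    nlinarith [Nat.cast_nonneg (α := ℝ) k])
  have hs3 : ∀ k, s k ≤ 1 / 2 := fun k => (hsσ k).trans (min_le_left _ _)
  have hs4 : ∀ k, L * s k ≤ 1 / 4 := fun k => by
    have h1 : s k ≤ 1 / (4 * L) := (hsσ k).trans (min_le_right _ _)
    calc L * s k ≤ L * (1 / (4 * L)) := by gcongr
      _ = 1 / 4 := by field_simp
  have hslim : Tendsto s atTop (𝓝 0) := by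
    refine squeeze_zero (fun k => (hs0 k).le) (fun k => hs1 k) ?_
    have := (tendsto_one_div_add_atTop_nhds_zero_nat (𝕜 := ℝ)).const_mul σ
    rw [mul_zero] at this
    refine this.congr fun k => ?_
    ring
  -- the points
  set p : ℕ → E := fun k => z + s k • u with hp
  have hsu : ∀ k, ‖s k • u‖ = s k := fun k => by
    rw [norm_smul, hu, mul_one, Real.norm_eq_abs, abs_of_pos (hs0 k)]
  have hn1 : ∀ k, 1 ≤ ‖p k‖ := fun k => by
    have h1 := (dual_J z).apply_le (p k)
    rw [hz, one_mul, hp, map_add, map_smul, J_apply_self, hz, hzu] at h1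
    simpa using h1
  have hn2 : ∀ k, ‖p k‖ ≤ 1 + L * s k ^ 2 := fun k => by
    have h1 := half_sq_ge (p k) z
    have h2 : z - p k = -(s k • u) := by rw [hp]; simp
    rw [h2, map_neg, map_smul, smul_eq_mul, hz] at h1
    have h3 : J (p k) u ≤ L * s k := by
      have h4 : J (p k) u = (J (p k) - J z) u := by rw [_root_.sub_apply, hzu, sub_zero]
      rw [h4]
      calc (J (p k) - J z) u ≤ ‖J (p k) - J z‖ * ‖u‖ :=
            (le_abs_self _).trans (by simpa using (J (p k) - J z).le_opNorm u)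
        _ ≤ L * ‖p k - z‖ := by rw [hu, mul_one]; exact hLip _ _
        _ = L * s k := by
            rw [hp, add_sub_cancel_left, hsu]
    have h5 : s k * J (p k) u ≤ s k * (L * s k) := mul_le_mul_of_nonneg_left h3 (hs0 k).le
    have h6 : 0 ≤ L * s k ^ 2 := by positivity
    nlinarith [hn1 k]
  have hpn : ∀ k, 0 < ‖p k‖ := fun k => lt_of_lt_of_le one_pos (hn1 k)
  set w : ℕ → E := fun k => ‖p k‖⁻¹ • p k with hw
  have hwn : ∀ k, ‖w k‖ = 1 := fun k => by
    rw [hw, norm_smul, norm_inv, norm_norm, inv_mul_cancel₀ (hpn k).ne']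
  have hwz : ∀ k, ‖w k - z‖ ≤ 2 * s k := fun k => by
    have := norm_normalize_sub (z := s k • u) hz (by rw [hsu]; exact hs3 k)
    rwa [hsu] at this
  have hinv : ∀ k, |‖p k‖⁻¹ - 1| ≤ L * s k ^ 2 := fun k => by
    have h1 : ‖p k‖⁻¹ ≤ 1 := inv_le_one_of_one_le₀ (hn1 k)
    rw [abs_of_nonpos (by linarith)]
    have h2 : 1 - ‖p k‖⁻¹ = (‖p k‖ - 1) * ‖p k‖⁻¹ := by
      rw [sub_mul, mul_inv_cancel₀ (hpn k).ne', one_mul]
    have h3 : (‖p k‖ - 1) * ‖p k‖⁻¹ ≤ (‖p k‖ - 1) * 1 :=
      mul_le_mul_of_nonneg_left h1 (by linarith [hn1 k])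
    linarith [hn2 k]
  have hw2 : ∀ k, ‖w k - z - s k • u‖ ≤ 2 * (L * s k ^ 2) := fun k => by
    have h1 : w k - z - s k • u = (‖p k‖⁻¹ - 1) • p k := by
      rw [sub_smul, one_smul, hw]
      simp only [hp]
      abel
    rw [h1, norm_smul, Real.norm_eq_abs]
    have h2 : ‖p k‖ ≤ 2 := by
      have := hn2 k
      have h3 : L * s k ^ 2 ≤ 1 := by nlinarith [hs4 k, hs3 k, hs0 k]
      linarith
    calc |‖p k‖⁻¹ - 1| * ‖p k‖ ≤ (L * s k ^ 2) * 2 :=
          mul_le_mul (hinv k) h2 (norm_nonneg _) (by positivity)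
      _ = _ := by ring
  have hw3 : ∀ k, s k / 2 ≤ ‖w k - z‖ := fun k => by
    have h1 : ‖s k • u‖ ≤ ‖w k - z‖ + ‖w k - z - s k • u‖ := by
      have h2 : s k • u = (w k - z) - (w k - z - s k • u) := by abel
      conv_lhs => rw [h2]
      exact norm_sub_le _ _
    rw [hsu] at h1
    have h2 := hw2 k
    have h3 : 2 * (L * s k ^ 2) ≤ s k / 2 := by nlinarith [hs4 k, hs0 k]
    linarith
  -- the isometries
  choose T hT hTc using fun k : ℕ => hmod k z (w k) hz (hwn k) (by
    rw [norm_sub_rev]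
    exact (hwz k).trans (by linarith [hs2 k]))
  set A : ℕ → E →L[ℝ] E := fun k =>
    ((T k).toContinuousLinearEquiv : E →L[ℝ] E) - ContinuousLinearMap.id ℝ E with hA
  have hAa : ∀ k x, A k x = T k x - x := fun k x => rfl
  have hAn : ∀ k, ‖A k‖ ≤ 1 / ((k : ℝ) + 1) := fun k => by
    refine ContinuousLinearMap.opNorm_le_bound _ (by positivity) fun x => ?_
    rw [hAa]
    exact hTc k x
  have hAz : ∀ k, s k / 2 ≤ ‖A k‖ := fun k => by
    refine (hw3 k).trans ?_
    have h1 := (A k).le_opNorm z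
    rw [hAa, hT, hz, mul_one] at h1
    exact h1
  have hApos : ∀ k, 0 < ‖A k‖ := fun k => lt_of_lt_of_le (by have := hs0 k; positivity) (hAz k)
  have hDn : ∀ k, ‖(‖A k‖⁻¹) • A k‖ = 1 := fun k => by
    rw [norm_smul, norm_inv, norm_norm, inv_mul_cancel₀ (hApos k).ne']
  set Ds : ℕ →ᵇ (E →L[ℝ] E) := bseq (fun k => ‖A k‖⁻¹ • A k) 1 (fun k => (hDn k).le) with hDs
  have hAlim : Tendsto (fun k => ‖A k‖) (hyperfilter ℕ : Filter ℕ) (𝓝 0) := by
    have h1 : Tendsto (fun k => ‖A k‖) atTop (𝓝 0) :=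
      squeeze_zero (fun k => norm_nonneg _) hAn tendsto_one_div_add_atTop_nhds_zero_nat
    refine h1.mono_left ?_
    rw [← Nat.cofinite_eq_atTop]
    exact hyperfilter_le_cofinite
  have hslim' : Tendsto s (hyperfilter ℕ : Filter ℕ) (𝓝 0) := by
    refine hslim.mono_left ?_
    rw [← Nat.cofinite_eq_atTop]
    exact hyperfilter_le_cofinite
  refine ⟨umap Ds, ?_, ?_, ?_⟩
  · -- skew
    intro Y
    obtain ⟨y, rfl⟩ := umk_surj Y
    rw [umap_mk]
    refine tendsto_nhds_unique (tendsto_J h y (app Ds y)) ?_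
    have hb : Tendsto (fun k => L * ‖A k‖ * ‖y‖ ^ 2) (hyperfilter ℕ : Filter ℕ) (𝓝 0) := by
      have := (hAlim.const_mul L).mul_const (‖y‖ ^ 2)
      simpa using this
    refine squeeze_zero_norm (fun k => ?_) hb
    have e1 : J (y k) (app Ds y k) = ‖A k‖⁻¹ * J (y k) (A k (y k)) := by
      rw [app_apply, hDs, bseq_apply, _root_.smul_apply, map_smul, smul_eq_mul]
    rw [e1, Real.norm_eq_abs, abs_mul, abs_of_pos (inv_pos.2 (hApos k))]
    have h1 : J (y k) (A k (y k)) ≤ 0 := by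
      rw [hAa, map_sub, J_apply_self]
      have h2 := (dual_J (y k)).apply_le (T k (y k))
      rw [LinearIsometryEquiv.norm_map] at h2
      nlinarith
    have h2 : -(L * (‖A k‖ * ‖y k‖) ^ 2) ≤ J (y k) (A k (y k)) := by
      have h3 : 0 ≤ J (T k (y k)) (T k (y k) - y k) := by
        rw [map_sub, J_apply_self, LinearIsometryEquiv.norm_map]
        have h4 := (dual_J (T k (y k))).apply_le (y k)
        rw [LinearIsometryEquiv.norm_map] at h4
        nlinarith
      have h4 : (J (T k (y k)) - J (y k)) (T k (y k) - y k) ≤ L * (‖A k‖ * ‖y k‖) ^ 2 := by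
        have h5 : ‖T k (y k) - y k‖ ≤ ‖A k‖ * ‖y k‖ := by
          have := (A k).le_opNorm (y k)
          rwa [hAa] at this
        calc (J (T k (y k)) - J (y k)) (T k (y k) - y k) ≤
              ‖J (T k (y k)) - J (y k)‖ * ‖T k (y k) - y k‖ :=
              (le_abs_self _).trans (by
                simpa using (J (T k (y k)) - J (y k)).le_opNorm (T k (y k) - y k))
          _ ≤ (L * ‖T k (y k) - y k‖) * ‖T k (y k) - y k‖ := by
              gcongr
              exact hLip _ _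
          _ = L * ‖T k (y k) - y k‖ ^ 2 := by ring
          _ ≤ L * (‖A k‖ * ‖y k‖) ^ 2 := by gcongr
      rw [_root_.sub_apply] at h4
      rw [hAa]
      linarith
    rw [abs_of_nonpos h1]
    have h3 : ‖y k‖ ≤ ‖y‖ := y.norm_coe_le_norm k
    calc ‖A k‖⁻¹ * -(J (y k) (A k (y k))) ≤ ‖A k‖⁻¹ * (L * (‖A k‖ * ‖y k‖) ^ 2) := by
          gcongr
          linarith
      _ = L * ‖A k‖ * ‖y k‖ ^ 2 * (‖A k‖⁻¹ * ‖A k‖) := by ring
      _ = L * ‖A k‖ * ‖y k‖ ^ 2 := by rw [inv_mul_cancel₀ (hApos k).ne', mul_one]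
      _ ≤ L * ‖A k‖ * ‖y‖ ^ 2 := by gcongr
  · -- nonzero
    intro h0
    choose x hx hx' using fun k : ℕ => ContinuousLinearMap.exists_lt_apply_of_lt_opNorm
      (‖A k‖⁻¹ • A k) (r := 1 / 2) (by rw [hDn]; norm_num)
    have h1 := tendsto_norm (app Ds (bseq x 1 fun k => (hx k).le))
    rw [← umap_mk, h0, zero_apply, norm_zero] at h1
    have h2 : (1 / 2 : ℝ) ≤ 0 := ge_of_tendsto' h1 fun k => (hx' k).le
    norm_num at h2
  · -- the value at `z`
    have hc : ∀ k, |s k / ‖A k‖| ≤ 2 := fun k => by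
      rw [abs_of_nonneg (div_nonneg (hs0 k).le (norm_nonneg _)), div_le_iff₀ (hApos k)]
      linarith [hAz k]
    refine ⟨ulim (fun k => s k / ‖A k‖), ?_⟩
    have hclim := tendsto_ulim hc
    rw [udiag_apply, udiag_apply, umap_mk, ← map_smul, umk_eq_iff]
    have hb : Tendsto (fun k => 4 * L * s k + |s k / ‖A k‖ - ulim (fun k => s k / ‖A k‖)|)
        (hyperfilter ℕ : Filter ℕ) (𝓝 0) := by
      have h1 := (hslim'.const_mul (4 * L)).add ((hclim.sub_const
        (ulim (fun k => s k / ‖A k‖))).abs)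
      simpa using h1
    refine squeeze_zero (fun k => norm_nonneg _) (fun k => ?_) hb
    have e1 : app Ds (ucst z) k - ((ulim fun k => s k / ‖A k‖) • ucst u : ℕ →ᵇ E) k =
        ‖A k‖⁻¹ • (w k - z - s k • u) +
          (s k / ‖A k‖ - ulim (fun k => s k / ‖A k‖)) • u := by
      rw [app_apply, hDs, bseq_apply, ucst_apply, BoundedContinuousFunction.smul_apply, ucst_apply,
        _root_.smul_apply, hAa, hT, smul_sub _ (w k - z) (s k • u), smul_smul, sub_smul, div_eq_inv_mul]
      abel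
    rw [e1]
    refine (norm_add_le _ _).trans ?_
    rw [norm_smul, norm_smul, hu, mul_one, Real.norm_eq_abs, Real.norm_eq_abs,
      abs_of_pos (inv_pos.2 (hApos k))]
    refine add_le_add ?_ le_rfl
    calc ‖A k‖⁻¹ * ‖w k - z - s k • u‖ ≤ ‖A k‖⁻¹ * (2 * (L * s k ^ 2)) := by
          gcongr
          exact hw2 k
      _ = 2 * L * s k * (s k / ‖A k‖) := by
          rw [div_eq_inv_mul]
          ring
      _ ≤ 2 * L * s k * 2 := by
          have h1 : s k / ‖A k‖ ≤ 2 := (le_abs_self _).trans (hc k)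
          have h2 : 0 ≤ 2 * L * s k := by have := hs0 k; positivity
          exact mul_le_mul_of_nonneg_left h1 h2
      _ = 4 * L * s k := by ring

end Pool.Agent.Helper53.BM
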